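import Mathlib
import Pool.Agent.MP_60034d_an.H13.Graph

set_option autoImplicit false

namespace Pool.Agent.Results.MP_60034d_an.CotypeTwo

open Pool.Agent.MP_60034d_an.H13

/-- The set of costs of all transportation plans for `f` on the graph `G` with its shortest path
metric: nonnegative `a x y` with `f` equal to the sum of `a x y` times the difference of the
indicator functions of `x` and `y`. -/
def costs {N : ℕ} (G : SimpleGraph (Fin N)) (f : Fin N → ℝ) : Set ℝ :=
  {r : ℝ | ∃ a : Fin N → Fin N → ℝ, (∀ x y, 0 ≤ a x y) ∧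
    (∀ v, f v = ∑ x, ∑ y, a x y * ((if v = x then 1 else 0) - (if v = y then 1 else 0))) ∧
    r = ∑ x, ∑ y, a x y * (G.dist x y : ℝ)}

/-- The transportation cost norm: the infimum of the costs of all transportation plans. -/
noncomputable def tc {N : ℕ} (G : SimpleGraph (Fin N)) (f : Fin N → ℝ) : ℝ := sInf (costs G f)

theorem kr_le {N : ℕ} (G : SimpleGraph (Fin N)) (f : Fin N → ℝ) :
    ∀ r ∈ costs G f, kr G f ≤ r := by
  rintro _ ⟨a, ha, hf, rfl⟩
  refine csSup_le (kr_nonempty _ _) ?_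
  rintro _ ⟨g, hg, rfl⟩
  have e : ∑ v, f v * g v = ∑ x, ∑ y, a x y * (g x - g y) := by
    simp_rw [hf, Finset.sum_mul]
    rw [Finset.sum_comm]
    refine Finset.sum_congr rfl fun x _ => ?_
    rw [Finset.sum_comm]
    refine Finset.sum_congr rfl fun y _ => ?_
    simp_rw [mul_assoc, ← Finset.mul_sum, sub_mul, Finset.sum_sub_distrib]
    simp
  rw [e]
  refine Finset.sum_le_sum fun x _ => Finset.sum_le_sum fun y _ => ?_
  exact mul_le_mul_of_nonneg_left ((le_abs_self _).trans (hg x y)) (ha x y)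

theorem exists_plan {N d : ℕ} (π : Fin d → Equiv.Perm (Fin N)) (hE : Expands Prod.fst (phd π))
    (f : Fin N → ℝ) (hf : ∑ v, f v = 0) : ∃ r ∈ costs (pg π) f, r ≤ kr (pg π) f := by
  obtain ⟨φ, h1, h2⟩ := exists_flow (Prod.fst : Fin N × Fin d → Fin N) (phd π) f (kr (pg π) f)
    fun g hg => le_kr _ f hf g ((lip_iff π hE g).2 hg)
  let a : Fin N → Fin N → ℝ := fun x y =>
    ∑ b : Fin N × Fin d, ((if x = b.1 then (if y = phd π b then max (φ b) 0 else 0) else 0) +
      (if x = phd π b then (if y = b.1 then max (-φ b) 0 else 0) else 0))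
  have key : ∀ c : Fin N → Fin N → ℝ, ∑ x, ∑ y, a x y * c x y =
      ∑ b : Fin N × Fin d, (max (φ b) 0 * c b.1 (phd π b) + max (-φ b) 0 * c (phd π b) b.1) := by
    intro c
    simp only [a, Finset.sum_mul]
    have : ∀ x, ∑ y, ∑ b : Fin N × Fin d,
        ((if x = b.1 then (if y = phd π b then max (φ b) 0 else 0) else 0) +
          (if x = phd π b then (if y = b.1 then max (-φ b) 0 else 0) else 0)) * c x y =
        ∑ b : Fin N × Fin d, ((if x = b.1 then max (φ b) 0 * c x (phd π b) else 0) +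
          (if x = phd π b then max (-φ b) 0 * c x b.1 else 0)) := by
      intro x
      rw [Finset.sum_comm]
      refine Finset.sum_congr rfl fun b _ => ?_
      simp only [add_mul, Finset.sum_add_distrib]
      congr 1
      · split_ifs <;> simp
      · split_ifs <;> simp
    simp_rw [this]
    rw [Finset.sum_comm]
    refine Finset.sum_congr rfl fun b _ => ?_
    rw [Finset.sum_add_distrib]
    simp
  refine ⟨_, ⟨a, fun x y => ?_, fun v => ?_, rfl⟩, ?_⟩
  · refine Finset.sum_nonneg fun b _ => add_nonneg ?_ ?_ <;> split_ifs <;> simp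
  · rw [key]
    have := h2 fun w => if v = w then 1 else 0
    simp only [mul_ite, mul_one, mul_zero, Finset.sum_ite_eq, Finset.mem_univ, if_true] at this
    rw [this]
    refine Finset.sum_congr rfl fun b _ => ?_
    have e : φ b = max (φ b) 0 - max (-φ b) 0 := by
      rcases le_total 0 (φ b) with h | h
      · rw [max_eq_left h, max_eq_right (by linarith)]; ring
      · rw [max_eq_right h, max_eq_left (by linarith)]; ring
    linear_combination ((if v = b.1 then (1 : ℝ) else 0) - (if v = phd π b then 1 else 0)) * e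
  · rw [key]
    refine le_trans (Finset.sum_le_sum fun b _ => ?_) h1
    have d1 : ((pg π).dist b.1 (phd π b) : ℝ) ≤ 1 := by
      rcases pg_adj_or_eq π b with h | h
      · rw [← h]; simp
      · rw [SimpleGraph.dist_eq_one_iff_adj.2 h]; simp
    rw [SimpleGraph.dist_comm (u := phd π b), ← add_mul]
    have e : max (φ b) 0 + max (-φ b) 0 = |φ b| := by
      rcases le_total 0 (φ b) with h | h
      · rw [max_eq_left h, max_eq_right (by linarith), abs_of_nonneg h]; ring
      · rw [max_eq_right h, max_eq_left (by linarith), abs_of_nonpos h]; ring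
    rw [e]
    exact mul_le_of_le_one_right (abs_nonneg _) d1

theorem isLeast_kr {N d : ℕ} (π : Fin d → Equiv.Perm (Fin N)) (hE : Expands Prod.fst (phd π))
    (f : Fin N → ℝ) (hf : ∑ v, f v = 0) : IsLeast (costs (pg π) f) (kr (pg π) f) := by
  obtain ⟨r, hr, hle⟩ := exists_plan π hE f hf
  exact ⟨le_antisymm hle (kr_le _ f r hr) ▸ hr, kr_le _ f⟩

theorem tc_eq {N d : ℕ} (π : Fin d → Equiv.Perm (Fin N)) (hE : Expands Prod.fst (phd π))
    (f : Fin N → ℝ) (hf : ∑ v, f v = 0) : tc (pg π) f = kr (pg π) f :=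
  (isLeast_kr π hE f hf).csInf_eq

/-- There is a sequence of connected bounded degree expanders, the n-th on n + 1 vertices, such
that the l2-sum of their transportation cost spaces has cotype 2. -/
theorem result :
    ∃ (G : ∀ n : ℕ, SimpleGraph (Fin (n + 1))) (C : ℝ),
      (∀ n, (G n).Connected) ∧
      (∀ n v, ((G n).neighborSet v).ncard ≤ 26) ∧
      (∀ n (S : Finset (Fin (n + 1))), (S.card : ℝ) ≤ ((n + 1 : ℕ) : ℝ) / 2 →
        (1 / 13 : ℝ) * S.card ≤
          ({e ∈ (G n).edgeSet | ∃ u ∈ S, ∃ v ∉ S, e = s(u, v)}.ncard : ℝ)) ∧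
      (∀ n (f : Fin (n + 1) → ℝ), ∑ v, f v = 0 → IsLeast (costs (G n) f) (tc (G n) f)) ∧
      ∀ (m : ℕ) (x : Fin m → ∀ n : ℕ, Fin (n + 1) → ℝ),
        (∀ i n, ∑ v, x i n v = 0) → (∀ i, Summable fun n => tc (G n) (x i n) ^ 2) →
        Real.sqrt (∑ i, ∑' n, tc (G n) (x i n) ^ 2) ≤
          C * Real.sqrt ((1 / 2 ^ m : ℝ) * ∑ s : Finset (Fin m),
            ∑' n, tc (G n) (fun v => ∑ i, (if i ∈ s then (1 : ℝ) else -1) * x i n v) ^ 2) := by
  classical
  obtain ⟨C, hC, hcot⟩ := cotype_two 13 28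
  choose π hE hsp using fun n : ℕ => exists_good (Fin (n + 1))
  refine ⟨fun n => pg (π n), C, fun n => ⟨fun u v => pg_reach (π n) (hE n) u v⟩, fun n v => ?_,
    fun n S hS => ?_, fun n f hf => tc_eq (π n) (hE n) f hf ▸ isLeast_kr (π n) (hE n) f hf,
    fun m x hx hs => ?_⟩
  · have := pg_degree (π n) v
    rw [← SimpleGraph.card_neighborSet_eq_degree] at this
    rw [← Nat.card_coe_set_eq, Nat.card_eq_fintype_card]
    exact this
  · have h1 : 2 * S.card ≤ Fintype.card (Fin (n + 1)) := by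
      rw [Fintype.card_fin]
      have : (2 : ℝ) * S.card ≤ ((n + 1 : ℕ) : ℝ) := by linarith
      exact_mod_cast this
    have h2 := pg_expand (π n) (hE n) S h1
    have h3 : ((S ×ˢ Sᶜ).filter (fun p => (pg (π n)).Adj p.1 p.2)).card ≤
        {e ∈ (pg (π n)).edgeSet | ∃ u ∈ S, ∃ v ∉ S, e = s(u, v)}.ncard := by
      rw [← Set.ncard_coe_finset]
      refine Set.ncard_le_ncard_of_injOn (fun p => s(p.1, p.2)) (fun p hp => ?_)
        (fun p hp q hq hpq => ?_) (Set.toFinite _)
      · simp only [Finset.coe_filter, Finset.mem_product, Finset.mem_compl, Set.mem_setOf_eq] at hp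
        exact ⟨hp.2, p.1, hp.1.1, p.2, hp.1.2, rfl⟩
      · simp only [Finset.coe_filter, Finset.mem_product, Finset.mem_compl, Set.mem_setOf_eq]
          at hp hq
        rcases Sym2.eq_iff.1 hpq with h | h
        · exact Prod.ext h.1 h.2
        · exact absurd (h.1 ▸ hp.1.1) hq.1.2
    have h4 : (S.card : ℝ) ≤
        13 * ({e ∈ (pg (π n)).edgeSet | ∃ u ∈ S, ∃ v ∉ S, e = s(u, v)}.ncard : ℝ) := by
      exact_mod_cast h2.trans (Nat.mul_le_mul_left 13 h3)
    linarith
  · have e1 : ∀ i n, tc (pg (π n)) (x i n) = kr (pg (π n)) (x i n) :=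
      fun i n => tc_eq (π n) (hE n) _ (hx i n)
    have e2 : ∀ (s : Finset (Fin m)) n,
        tc (pg (π n)) (fun v => ∑ i, (if i ∈ s then (1 : ℝ) else -1) * x i n v) =
          kr (pg (π n)) (fun v => ∑ i, sg s i * x i n v) :=
      fun s n => tc_eq (π n) (hE n) _ (sum_sg_zero (fun i => x i n) (fun i => hx i n) s)
    simp only [e1] at hs
    simp only [e1, e2]
    have hs2 : ∀ s : Finset (Fin m),
        Summable (fun n => kr (pg (π n)) (fun v => ∑ i, sg s i * x i n v) ^ 2) := by
      intro s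
      refine Summable.of_nonneg_of_le (fun n => sq_nonneg _) (fun n => ?_)
        ((summable_sum (s := Finset.univ) (fun i _ => hs i)).mul_left (m : ℝ))
      have h1 := kr_sum_le (pg (π n)) (fun i => x i n) (fun i => hx i n) s
      have h2 := kr_nonneg (pg (π n)) _ (sum_sg_zero (fun i => x i n) (fun i => hx i n) s)
      have h3 := sq_sum_le_card_mul_sum_sq (s := (Finset.univ : Finset (Fin m)))
        (f := fun i => kr (pg (π n)) (x i n))
      rw [Finset.card_univ, Fintype.card_fin] at h3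
      exact (pow_le_pow_left₀ h2 h1 2).trans h3
    have h1 : ∑ i, ∑' n, kr (pg (π n)) (x i n) ^ 2 ≤ C ^ 2 * ((1 / 2 ^ m : ℝ) *
        ∑ s : Finset (Fin m), ∑' n, kr (pg (π n)) (fun v => ∑ i, sg s i * x i n v) ^ 2) := by
      have a1 := hasSum_sum (s := Finset.univ) (fun i _ => (hs i).hasSum)
      have a2 := ((hasSum_sum (s := Finset.univ) (fun s _ => (hs2 s).hasSum)).mul_left
        (1 / 2 ^ m : ℝ)).mul_left (C ^ 2)
      refine hasSum_le (fun n => ?_) a1 a2
      have := hcot (Fin (n + 1)) (π n) (hE n) (hsp n) (Fin m) (fun i => x i n) (fun i => hx i n)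
      rwa [Fintype.card_fin] at this
    calc _ ≤ Real.sqrt (C ^ 2 * ((1 / 2 ^ m : ℝ) *
        ∑ s : Finset (Fin m), ∑' n, kr (pg (π n)) (fun v => ∑ i, sg s i * x i n v) ^ 2)) :=
          Real.sqrt_le_sqrt h1
      _ = _ := by rw [Real.sqrt_mul (sq_nonneg C), Real.sqrt_sq hC]

end Pool.Agent.Results.MP_60034d_an.CotypeTwo
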